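import Mathlib.Analysis.SpecialFunctions.Sqrt
import Mathlib.Tactic.IntervalCases

/-! Arithmetic along a diametral path for graphs of small clique number. -/

namespace Pool.Agent.MP_dd6dde_co.Cq

/-- Six times the lower bound for the sum of the distances plus the number of adjacent pairs. -/
def t6 (D k : ℕ) : ℕ :=
  2 * D * (D + 1) * (D + 2) + 12 * D + 3 * k * (D ^ 2 + 2 * D + 16) + 12 * (k * (k - 1))

theorem fin_small : ∀ n < 36, ∀ D < n, 5 ≤ D →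
    (6 * (if D = 5 then 16 else 4 * D - 5)) ^ 2 * (n ^ 2 * 2 ^ 2 * D) ≤
        (4 * t6 D (n - D - 1)) ^ 2 ∨
      6 * ((if D = 5 then 16 else 4 * D - 5) *
        (2 * D + 6 * (n - D - 1) + (n - D - 1) * (n - D - 1 - 1))) ≤ 4 * t6 D (n - D - 1) := by
  decide +kernel

/-- The orders at which the criterion is checked. -/
def base (w : ℕ) : ℕ := if w = 2 then 36 else w ^ 4

theorem fin_base : ∀ w < 5, 2 ≤ w → ∀ D < 9 * w ^ 2, 5 ≤ D → D < base w ∧
    (6 * (if D = 5 then 16 else 4 * D - 5)) ^ 2 * (base w ^ 2 * w ^ 2 * D) ≤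
      (4 * t6 D (base w - D - 1)) ^ 2 := by
  decide +kernel

theorem t6_eq (D k : ℕ) : (t6 D k : ℝ) = 12 * ((D : ℝ) + 1 + k) ^ 2 +
    ((D : ℝ) + 1 + k) * (3 * D ^ 2 - 18 * D + 12) - D ^ 3 + 9 * D ^ 2 - 2 * D - 24 := by
  have hk : ((k * (k - 1) : ℕ) : ℝ) = k * (k - 1) := by
    rcases k with _ | k <;> simp
  unfold t6
  push_cast [hk]
  ring

theorem t6_mono {D j k : ℕ} (h : j ≤ k) : (D + 1 + k) * t6 D j ≤ (D + 1 + j) * t6 D k := by
  rw [← Nat.cast_le (α := ℝ)]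
  push_cast
  rw [t6_eq, t6_eq]
  have h1 : (j : ℝ) ≤ k := by exact_mod_cast h
  have h2 : (0 : ℝ) ≤ j := by positivity
  have h3 : (0 : ℝ) ≤ D := by positivity
  have h4 : (D : ℝ) * D ≤ (D + 1 + k) * (D + 1 + j) :=
    mul_le_mul (by linarith) (by linarith) h3 (by linarith)
  have h5 : (0 : ℝ) ≤ D ^ 3 := by positivity
  have h6 : 0 ≤ ((k : ℝ) - j) * (12 * ((D + 1 + k) * (D + 1 + j)) + D ^ 3 - 9 * D ^ 2 + 2 * D + 24) :=
    mul_nonneg (by linarith) (by nlinarith)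
  linarith

theorem t6_ge {D k : ℕ} (hD : 5 ≤ D) :
    3 * ((D : ℝ) + 1 + k) * D ^ 2 - D ^ 3 + 9 * D ^ 2 - 18 * (D + 1 + k) * D +
      12 * ((D : ℝ) + 1 + k) ^ 2 ≤ t6 D k := by
  have h5 : (5 : ℝ) ≤ D := by exact_mod_cast hD
  have h0 : (0 : ℝ) ≤ k := by positivity
  rw [t6_eq]
  linarith

theorem crit_of {D M T : ℕ} (hD : 5 ≤ D) (h : D * M ≤ T) :
    (if D = 5 then 16 else 4 * D - 5) * M ≤ 4 * T := by
  have : (if D = 5 then 16 else 4 * D - 5) * M ≤ 4 * D * M :=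
    Nat.mul_le_mul_right _ (by split_ifs <;> omega)
  nlinarith

theorem real_far {n x M T : ℝ} (hn : x ^ 2 ≤ n) (hM : x ^ 2 * M ≤ n * (x ^ 4 / 3))
    (hT : 3 * n * (x ^ 2) ^ 2 - (x ^ 2) ^ 3 + 9 * (x ^ 2) ^ 2 - 18 * n * x ^ 2 + 12 * n ^ 2 ≤ 6 * T) :
    x ^ 2 * M ≤ T := by
  have h1 := mul_le_mul_of_nonneg_right hn (show 0 ≤ x ^ 4 by positivity)
  nlinarith [sq_nonneg (x ^ 2 - n), sq_nonneg n]

theorem real_big {n x y M T : ℝ} (hx : 0 ≤ x) (hy : 5 ≤ y) (hyn : y ^ 4 ≤ n) (hn : x ^ 2 ≤ n)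
    (hM : M ≤ n * y * x)
    (hT : 3 * n * (x ^ 2) ^ 2 - (x ^ 2) ^ 3 + 9 * (x ^ 2) ^ 2 - 18 * n * x ^ 2 + 12 * n ^ 2 ≤ 6 * T) :
    x ^ 2 * M ≤ T := by
  have hy0 : 0 < y := by linarith
  have hn0 : 0 ≤ n := le_trans (by positivity) hyn
  have h1 : x ^ 2 * M ≤ n * (y * x ^ 3) := by
    have := mul_le_mul_of_nonneg_left hM (sq_nonneg x)
    linarith
  by_cases h : 3 * y ≤ x
  · refine real_far hn (h1.trans (mul_le_mul_of_nonneg_left ?_ hn0)) hT
    have := mul_le_mul_of_nonneg_right h (show 0 ≤ x ^ 3 by positivity)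
    linarith
  have h2 : x ^ 2 ≤ 9 * y ^ 2 := by nlinarith
  have h3 : 25 ≤ y ^ 2 := by nlinarith
  have h4 : 25 * y ^ 2 ≤ n := by nlinarith
  have h5 : x ^ 2 * x ^ 4 ≤ 9 / 25 * n * x ^ 4 :=
    mul_le_mul_of_nonneg_right (by linarith) (by positivity)
  have h6 : 25 * x ^ 2 ≤ y ^ 2 * x ^ 2 := mul_le_mul_of_nonneg_right h3 (sq_nonneg x)
  have h7 : y * x ^ 3 ≤ 11 / 25 * x ^ 4 - 3 * x ^ 2 + 2 * n := by
    nlinarith [sq_nonneg (x ^ 2 - 25 / 22 * x * y - 7 / 5 * y ^ 2), sq_nonneg (x * y - 9 / 7 * y ^ 2),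
      sq_nonneg (y ^ 2), sq_nonneg (x * y)]
  have h8 := mul_le_mul_of_nonneg_left h7 hn0
  have h9 : 0 ≤ x ^ 4 := by positivity
  nlinarith

variable {D k M T w : ℕ}

theorem arith_far (hD : 5 ≤ D) (h2 : t6 D k ≤ 6 * T)
    (h3 : (M : ℝ) ≤ (D + 1 + k : ℕ) * w * Real.sqrt D) (hw : 3 * (w : ℝ) ≤ Real.sqrt D) :
    (if D = 5 then 16 else 4 * D - 5) * M ≤ 4 * T := by
  have hx := Real.sq_sqrt (show (0 : ℝ) ≤ D by positivity)
  refine crit_of hD ?_
  have h4 := t6_ge (k := k) hD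
  have h5 : (t6 D k : ℝ) ≤ 6 * T := by exact_mod_cast h2
  have h0 : (0 : ℝ) ≤ k := by positivity
  have x0 := Real.sqrt_nonneg (D : ℝ)
  have h8 := real_far (n := (D : ℝ) + 1 + k) (x := Real.sqrt D) (M := M) (T := T)
    (by rw [hx]; linarith)
    (by
      push_cast at h3
      have a1 := mul_le_mul_of_nonneg_left h3 (sq_nonneg (Real.sqrt D))
      have a2 := mul_le_mul_of_nonneg_right hw
        (show 0 ≤ ((D : ℝ) + 1 + k) * Real.sqrt D ^ 3 by positivity)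
      linarith)
    (by rw [hx]; linarith)
  rw [hx] at h8
  exact_mod_cast h8

theorem arith_near (hD : 5 ≤ D) (h1 : M ≤ 2 * D + 6 * k + k * (k - 1)) (h2 : t6 D k ≤ 6 * T)
    (h3 : (M : ℝ) ≤ (D + 1 + k : ℕ) * w * Real.sqrt D) (hw : w ≤ 2 ∨ w ^ 4 ≤ D + 1 + k) :
    (if D = 5 then 16 else 4 * D - 5) * M ≤ 4 * T := by
  have hx := Real.sq_sqrt (show (0 : ℝ) ≤ D by positivity)
  by_cases hn : D + 1 + k < 625
  · obtain ⟨v, v1, v2, v3, v4⟩ : ∃ v, w ≤ v ∧ 2 ≤ v ∧ v < 5 ∧ (v = 2 ∨ v ^ 4 ≤ D + 1 + k) := by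
      by_cases h : w ≤ 2
      · exact ⟨2, h, le_rfl, by norm_num, Or.inl rfl⟩
      · have h' := hw.resolve_left h
        exact ⟨w, le_rfl, by omega, lt_of_pow_lt_pow_left₀ 4 (by norm_num) (by omega), Or.inr h'⟩
    have h4 : (M : ℝ) ≤ (D + 1 + k : ℕ) * v * Real.sqrt D := h3.trans (by gcongr)
    by_cases hf : 9 * v ^ 2 ≤ D
    · refine arith_far hD h2 h4 (Real.le_sqrt_of_sq_le ?_)
      rw [mul_pow]
      exact_mod_cast hf
    have h5 : M ^ 2 ≤ (D + 1 + k) ^ 2 * v ^ 2 * D := by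
      have a1 := pow_le_pow_left₀ (by positivity) h4 2
      rw [mul_pow, mul_pow, hx] at a1
      exact_mod_cast a1
    have key : ∀ c : ℕ, (6 * c) ^ 2 * ((D + 1 + k) ^ 2 * v ^ 2 * D) ≤ (4 * t6 D k) ^ 2 →
        c * M ≤ 4 * T := fun c h => by
      have a1 : (6 * (c * M)) ^ 2 ≤ (4 * t6 D k) ^ 2 := by
        refine le_trans ?_ h
        rw [← mul_assoc, mul_pow]
        exact Nat.mul_le_mul_left _ h5
      have := (Nat.pow_le_pow_iff_left two_ne_zero).1 a1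
      omega
    by_cases hb : base v ≤ D + 1 + k
    · obtain ⟨b1, b2⟩ := fin_base v v3 v2 D (by omega) hD
      obtain ⟨j, hj⟩ : ∃ j, base v = D + 1 + j := ⟨base v - D - 1, by omega⟩
      rw [hj, show D + 1 + j - D - 1 = j by omega] at b2
      refine key _ (Nat.le_of_mul_le_mul_left (c := (D + 1 + j) ^ 2) ?_ (by positivity))
      have a1 := Nat.pow_le_pow_left (t6_mono (D := D) (show j ≤ k by omega)) 2
      have a2 := Nat.mul_le_mul_left ((D + 1 + k) ^ 2) b2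
      generalize (if D = 5 then 16 else 4 * D - 5) = c at a2 ⊢
      calc _ = (D + 1 + k) ^ 2 * ((6 * c) ^ 2 * ((D + 1 + j) ^ 2 * v ^ 2 * D)) := by ring
        _ ≤ 16 * ((D + 1 + k) * t6 D j) ^ 2 := a2.trans_eq (by ring)
        _ ≤ 16 * ((D + 1 + j) * t6 D k) ^ 2 := Nat.mul_le_mul_left _ a1
        _ = _ := by ring
    have hv : v = 2 := by
      by_contra e
      rw [base, if_neg e] at hb
      exact hb (v4.resolve_left e)
    subst hv
    have h6 := fin_small (D + 1 + k) (by simpa [base] using hb) D (by omega) hD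
    rw [show D + 1 + k - D - 1 = k by omega] at h6
    rcases h6 with h | h
    · exact key _ h
    · generalize (if D = 5 then 16 else 4 * D - 5) = c at h ⊢
      have := Nat.mul_le_mul_left c h1
      omega
  refine crit_of hD ?_
  have h4 := t6_ge (k := k) hD
  have h5 : (t6 D k : ℝ) ≤ 6 * T := by exact_mod_cast h2
  have h6 : (max w 5) ^ 4 ≤ D + 1 + k := by
    rcases le_total w 5 with h | h
    · rw [max_eq_right h]; omega
    · rw [max_eq_left h]; omega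
  have h7 : (((max w 5 : ℕ) : ℝ)) ^ 4 ≤ (D : ℝ) + 1 + k := by exact_mod_cast h6
  have h8 := real_big (n := (D : ℝ) + 1 + k) (x := Real.sqrt D) (y := ((max w 5 : ℕ) : ℝ)) (M := M)
    (T := T) (Real.sqrt_nonneg _) (by exact_mod_cast le_max_right w 5) h7
    (by rw [hx]; have : (0 : ℝ) ≤ k := by positivity
        linarith)
    (by
      refine h3.trans ?_
      push_cast
      gcongr
      exact le_max_left _ _)
    (by rw [hx]; linarith)
  rw [hx] at h8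
  exact_mod_cast h8

end Pool.Agent.MP_dd6dde_co.Cq
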