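import Mathlib.Combinatorics.SimpleGraph.Clique
import Pool.Agent.MP_dd6dde_co.Thr.Comb

/-! The Caro and Wei bound for cliques, and dense graphs of small clique number. -/

namespace Pool.Agent.MP_dd6dde_co.Cq

open Finset Thr
open scoped Classical

variable {V : Type} [Fintype V] {G : SimpleGraph V}

omit [Fintype V] in
theorem caro (g : V → ℝ) (g0 : ∀ v, 0 ≤ g v) : ∀ (k : ℕ) (A : Finset V), A.card ≤ k →
    (∀ v ∈ A, g v * ((A.filter fun x => ¬ G.Adj v x).card : ℝ) ≤ 1) →
    ∃ C : Finset V, C ⊆ A ∧ G.IsClique (C : Set V) ∧ ∑ v ∈ A, g v ≤ C.card := by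
  intro k
  induction k with
  | zero =>
    intro A hA _
    obtain rfl := card_eq_zero.1 (Nat.le_zero.1 hA)
    exact ⟨∅, subset_rfl, by simp, by simp⟩
  | succ k ih =>
    intro A hA h
    rcases A.eq_empty_or_nonempty with rfl | hne
    · exact ⟨∅, subset_rfl, by simp, by simp⟩
    obtain ⟨v, hv, hmax⟩ := exists_max_image A g hne
    have hsub : (A.filter fun x => G.Adj v x) ⊆ A := filter_subset _ _
    have hlt : (A.filter fun x => G.Adj v x).card < A.card :=
      card_lt_card ⟨hsub, fun hs => G.irrefl (mem_filter.1 (hs hv)).2⟩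
    obtain ⟨C, hC1, hC2, hC3⟩ := ih (A.filter fun x => G.Adj v x) (by omega) fun x hx => by
      refine le_trans (mul_le_mul_of_nonneg_left ?_ (g0 x)) (h x (hsub hx))
      exact_mod_cast card_le_card (filter_subset_filter _ hsub)
    have hvC : v ∉ C := fun hc => G.irrefl (mem_filter.1 (hC1 hc)).2
    refine ⟨insert v C, insert_subset hv (hC1.trans hsub), ?_, ?_⟩
    · rw [coe_insert]
      exact hC2.insert fun b hb _ => (mem_filter.1 (hC1 hb)).2
    · rw [← sum_filter_add_sum_filter_not A fun x => G.Adj v x, card_insert_of_notMem hvC]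
      have h1 := sum_le_card_nsmul (A.filter fun x => ¬ G.Adj v x) g (g v)
        fun x hx => hmax x (mem_filter.1 hx).1
      rw [nsmul_eq_mul] at h1
      have h2 := h v hv
      push_cast
      linarith

theorem row_inv (hc : G.Connected) (u : V) :
    ∑ v ∈ univ.filter fun v => G.Adj u v, (1 : ℝ) / nu G u v ≤ (G.cliqueNum : ℝ) - 1 := by
  obtain ⟨C, hC1, hC2, hC3⟩ := caro (G := G) (fun v => (1 : ℝ) / nu G u v)
    (fun v => by positivity) _ (univ.filter fun v => G.Adj u v) le_rfl fun v hv => by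
      have huv := (mem_filter.1 hv).2
      have h0 : (0 : ℝ) < nu G u v := by exact_mod_cast nu_pos huv
      rw [one_div, inv_mul_le_iff₀ h0, mul_one]
      have hu : u ∈ univ.filter fun w => G.dist w u < G.dist w v := by
        simp [SimpleGraph.dist_eq_one_iff_adj.2 huv]
      have h1 : ((univ.filter fun v => G.Adj u v).filter fun x => ¬ G.Adj v x) ⊆
          insert v ((univ.filter fun w => G.dist w u < G.dist w v).erase u) := fun x hx => by
        rw [mem_filter, mem_filter] at hx
        by_cases e : x = v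
        · simp [e]
        · refine mem_insert_of_mem (mem_erase.2 ⟨hx.1.2.ne', mem_filter.2 ⟨mem_univ _, ?_⟩⟩)
          rw [SimpleGraph.dist_eq_one_iff_adj.2 hx.1.2.symm]
          exact hc.one_lt_dist_of_ne_of_not_adj e fun h => hx.2 h.symm
      have h2 := (card_le_card h1).trans (card_insert_le _ _)
      rw [card_erase_add_one hu] at h2
      exact_mod_cast h2
  have huC : u ∉ C := fun h => G.irrefl (mem_filter.1 (hC1 h)).2
  have h1 : G.IsClique ((insert u C : Finset V) : Set V) := by
    rw [coe_insert]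
    exact hC2.insert fun b hb _ => (mem_filter.1 (hC1 hb)).2
  have h2 : (insert u C).card ≤ G.cliqueNum := SimpleGraph.IsClique.card_le_cliqueNum (tc := h1)
  rw [card_insert_of_notMem huC] at h2
  have h3 : (C.card : ℝ) + 1 ≤ G.cliqueNum := by exact_mod_cast h2
  linarith

theorem sum_inv (hc : G.Connected) :
    ∑ e ∈ EE G, (1 : ℝ) / nu G e.1 e.2 ≤ Fintype.card V * ((G.cliqueNum : ℝ) - 1) := by
  have h := sum_le_card_nsmul univ _ _ fun u _ => row_inv hc u
  rw [nsmul_eq_mul, card_univ] at h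
  refine le_trans (le_of_eq ?_) h
  simp only [EE, sum_filter, Fintype.sum_prod_type]

theorem sum_inv' (hc : G.Connected) :
    ∑ e ∈ EE G, (1 : ℝ) / nu G e.2 e.1 ≤ Fintype.card V * ((G.cliqueNum : ℝ) - 1) := by
  refine le_trans (le_of_eq ?_) (sum_inv hc)
  simp only [EE, sum_filter, Fintype.sum_prod_type]
  rw [sum_comm]
  simp only [G.adj_comm]

/-- Many edges and small clique number force a positive derivative at each zero. -/
theorem deriv_dense (hc : G.Connected) {r α : ℝ} (hr : 0 < r) (hD : ∀ e, de G e ≤ r ^ 2)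
    (hM : Fintype.card V * ((G.cliqueNum : ℝ) - 1) * r < (EE G).card) (hα0 : 0 < α)
    (h0 : hG G α = 0) :
    ∑ e ∈ PP V, de G e ^ α * Real.log (de G e) < ∑ e ∈ EE G, pe G e ^ α * Real.log (pe G e) := by
  have hS : ∑ e ∈ EE G, pe G e ^ α = ∑ e ∈ PP V, de G e ^ α := by
    have := two_h' (G := G) α
    rw [h0] at this
    linarith
  have h1 : ∑ e ∈ PP V, de G e ^ α * Real.log (de G e) ≤
      (∑ e ∈ PP V, de G e ^ α) * Real.log (r ^ 2) := by
    rw [sum_mul]
    refine sum_le_sum fun e he => ?_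
    have := one_le_de hc he
    exact mul_le_mul_of_nonneg_left (Real.log_le_log (by linarith) (hD e)) (by positivity)
  have hp : 0 < (r ^ 2) ^ α := by positivity
  have h2 : ∑ e ∈ EE G, (pe G e ^ α * Real.log (r ^ 2) +
      (r ^ 2) ^ α * (2 - r * (1 / nu G e.1 e.2) - r * (1 / nu G e.2 e.1))) ≤
      ∑ e ∈ EE G, pe G e ^ α * Real.log (pe G e) := sum_le_sum fun e he => by
    have a0 : 0 < pe G e := by linarith [one_le_pe he]
    have n1 : (0 : ℝ) < nu G e.1 e.2 := by exact_mod_cast nu_pos (mem_EE.1 he)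
    have n2 : (0 : ℝ) < nu G e.2 e.1 := by exact_mod_cast nu_pos (mem_EE.1 he).symm
    have a1 := Real.log_le_sub_one_of_pos (div_pos hr n1)
    have a2 := Real.log_le_sub_one_of_pos (div_pos hr n2)
    rw [Real.log_div hr.ne' n1.ne'] at a1
    rw [Real.log_div hr.ne' n2.ne'] at a2
    have a3 : Real.log (pe G e) = Real.log (nu G e.1 e.2) + Real.log (nu G e.2 e.1) := by
      rw [← Real.log_mul n1.ne' n2.ne', pe, Nat.cast_mul]
    have a4 : Real.log (r ^ 2) = 2 * Real.log r := by rw [Real.log_pow]; norm_num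
    have a5 : 2 - r * (1 / nu G e.1 e.2) - r * (1 / nu G e.2 e.1) ≤
        Real.log (pe G e) - Real.log (r ^ 2) := by
      rw [mul_one_div, mul_one_div]
      linarith
    have a6 : 0 ≤ (pe G e ^ α - (r ^ 2) ^ α) * (Real.log (pe G e) - Real.log (r ^ 2)) := by
      rcases le_total (pe G e) (r ^ 2) with h | h
      · exact mul_nonneg_of_nonpos_of_nonpos
          (sub_nonpos.2 (Real.rpow_le_rpow a0.le h hα0.le)) (sub_nonpos.2 (Real.log_le_log a0 h))
      · exact mul_nonneg (sub_nonneg.2 (Real.rpow_le_rpow (by positivity) h hα0.le))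
          (sub_nonneg.2 (Real.log_le_log (by positivity) h))
    have a7 := mul_le_mul_of_nonneg_left a5 hp.le
    linarith
  simp only [sum_add_distrib, sum_sub_distrib, ← sum_mul, ← mul_sum, sum_const, nsmul_eq_mul,
    hS] at h2
  have h3 := mul_le_mul_of_nonneg_left (sum_inv hc) hr.le
  have h4 := mul_le_mul_of_nonneg_left (sum_inv' hc) hr.le
  have h5 : 0 < (r ^ 2) ^ α * (((EE G).card : ℝ) * 2 - r * ∑ e ∈ EE G, (1 : ℝ) / nu G e.1 e.2 -
      r * ∑ e ∈ EE G, (1 : ℝ) / nu G e.2 e.1) := mul_pos hp (by linarith)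
  linarith

end Pool.Agent.MP_dd6dde_co.Cq
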