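import Mathlib.Combinatorics.SimpleGraph.Coloring.Vertex
import Pool.Agent.MP_dd6dde_co.Thr.Low

/-! Graphs of small chromatic number with three zeros. -/

namespace Pool.Agent.MP_dd6dde_co.Cq

open Finset Sum Thr
open scoped Classical

theorem cone_col {j k t f D : ℕ} (hk : 1 ≤ k) : (cone (mp j k t f) D).Colorable (k + 1) := by
  let c : ((Fin j × Fin k × Fin t) ⊕ Fin f) ⊕ Fin (D + 1) → ℕ
    | inl (inl x) => x.2.1
    | inl (inr _) => 0
    | inr i => if (i : ℕ) % 2 = 0 then k else 0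
  have lt : ∀ a, c (inl a) < k := by
    rintro (x | x)
    · exact x.2.1.2
    · exact hk
  refine (SimpleGraph.colorable_iff_exists_bdd_nat_coloring _).2
    ⟨SimpleGraph.Coloring.mk c ?_, ?_⟩
  · rintro (a | i) (b | i') h
    · rw [cone_ll] at h
      rcases a with x | x <;> rcases b with y | y
      · exact fun e => h.2 (Fin.ext e)
      all_goals exact h.elim
    · have h1 : (i' : ℕ) + 1 = 1 := h
      have h2 := lt a
      have h3 : c (inr i') = k := if_pos (by omega)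
      omega
    · have h1 : (i : ℕ) + 1 = 1 := h
      have h2 := lt b
      have h3 : c (inr i) = k := if_pos (by omega)
      omega
    · have h1 : ((i : ℕ) - i') + (i' - i) = 1 := h
      change (if (i : ℕ) % 2 = 0 then k else 0) ≠ if (i' : ℕ) % 2 = 0 then k else 0
      split_ifs <;> omega
  · rintro (a | i)
    · exact (lt a).trans (Nat.lt_succ_self k)
    · change (if (i : ℕ) % 2 = 0 then k else 0) < k + 1
      split_ifs <;> omega

theorem three_zeros_col {l σ : ℝ} {n : ℕ} (hl : 100 ≤ l) (hσ0 : 0 < σ)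
    (hσ : Real.log σ = l ^ 4 / 2) (hn : σ ^ 2 = n) :
    ∃ (V : Type) (_ : Fintype V) (G : SimpleGraph V), Fintype.card V = n ∧ G.Connected ∧ G ≠ ⊤ ∧
      (∃ k : ℕ, G.Colorable k ∧ (k : ℝ) ^ 2 ≤ 17000 ^ 2 * (σ * l ^ 3)) ∧
      ∃ a b c : ℝ, a < b ∧ b < c ∧ hG G a = 0 ∧ hG G b = 0 ∧ hG G c = 0 := by
  have hl0 : 0 < l := by linarith
  have hσ1 : 1 ≤ σ := by
    have h1 := log_le_self' hσ0
    have h2 := pow_le_pow_left₀ (by norm_num) hl 4
    linarith
  have hx : 1 ≤ 4 * σ * l ^ 3 := by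
    have := one_le_pow₀ (n := 3) (show (1 : ℝ) ≤ l by linarith)
    nlinarith
  obtain ⟨t, ht1, ht2⟩ : ∃ t : ℕ, 4 * σ * l ^ 3 ≤ (t : ℝ) ^ 2 ∧ (t : ℝ) ^ 2 ≤ 16 * σ * l ^ 3 := by
    refine ⟨⌈Real.sqrt (4 * σ * l ^ 3)⌉₊, ?_, ?_⟩
    · exact Real.sqrt_le_iff.1 (Nat.le_ceil _) |>.2
    · have h1 := Real.one_le_sqrt.2 hx
      have h2 := Nat.ceil_lt_add_one (Real.sqrt_nonneg (4 * σ * l ^ 3))
      have h3 : (⌈Real.sqrt (4 * σ * l ^ 3)⌉₊ : ℝ) ^ 2 ≤ (2 * Real.sqrt (4 * σ * l ^ 3)) ^ 2 :=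
        pow_le_pow_left₀ (by positivity) (by linarith) 2
      rw [mul_pow, Real.sq_sqrt (by linarith)] at h3
      linarith
  obtain ⟨α, δ, hα, hδ0, hδ1, hαδ, f1, f2, f3, f4⟩ := low_facts hl hσ0 hσ ht1 ht2
  obtain ⟨N, hN⟩ : ∃ N : ℕ, N = t ^ 2 := ⟨_, rfl⟩
  have hNT : (t : ℝ) ^ 2 = N := by rw [hN]; push_cast; rfl
  rw [hNT] at ht1 ht2 f1 f2 f3 f4
  have hN1 : (1 : ℝ) ≤ N := hx.trans ht1
  have hN1' : 1 ≤ N := by exact_mod_cast hN1
  rw [show σ ^ 4 = (σ ^ 2) ^ 2 by ring] at f3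
  rw [hn] at f1 f2 f3 f4
  have f4' : 34 * N ≤ n := by exact_mod_cast f4
  obtain ⟨m, hm⟩ : ∃ m : ℕ, n = m + (16 * N + 1) := ⟨n - (16 * N + 1), by omega⟩
  have hm1 : (m : ℝ) ≤ n := by exact_mod_cast (by omega : m ≤ n)
  have hm2 : (n : ℝ) ≤ 2 * m := by exact_mod_cast (by omega : n ≤ 2 * m)
  have hn0 : (0 : ℝ) < n := by linarith
  obtain ⟨Φ, hΦ⟩ : ∃ Φ, Φ = ∑ i ∈ range (16 * N + 1), ((i : ℝ) + 1) ^ α := ⟨_, rfl⟩
  have hΦ0 : 0 ≤ Φ := by rw [hΦ]; positivity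
  have hNα : 0 < (N : ℝ) ^ α := by positivity
  have hNα1 : (N : ℝ) ^ α ≤ N := Real.rpow_le_self_of_one_le hN1 (by linarith)
  have hΦ1 : Φ ≤ 289 * (N * (N : ℝ) ^ α) := by
    have h1 := sum_le_card_nsmul (range (16 * N + 1)) (fun i => ((i : ℝ) + 1) ^ α)
      (17 * (N : ℝ) ^ α) fun i hi => by
        have h2 : (i : ℝ) + 1 ≤ 17 * N := by
          exact_mod_cast (by have := mem_range.1 hi; omega : i + 1 ≤ 17 * N)
        refine (Real.rpow_le_rpow (by positivity) h2 (by linarith)).trans ?_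
        rw [Real.mul_rpow (by norm_num) (by positivity)]
        exact mul_le_mul_of_nonneg_right
          (Real.rpow_le_self_of_one_le (by norm_num) (by linarith)) hNα.le
    rw [card_range, nsmul_eq_mul, ← hΦ] at h1
    push_cast at h1
    have := mul_le_mul_of_nonneg_right hN1 hNα.le
    linarith
  have hnN : 10 * (n : ℝ) ≤ 64 * (N * (N : ℝ) ^ α) := by
    have h1 : (8 * (N : ℝ)) ^ (1 + α) ≤ 64 * (N * (N : ℝ) ^ α) := by
      rw [Real.rpow_add (by positivity), Real.rpow_one, Real.mul_rpow (by norm_num) (by positivity)]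
      have := mul_le_mul_of_nonneg_right
        (Real.rpow_le_self_of_one_le (show (1 : ℝ) ≤ 8 by norm_num) (show α ≤ 1 by linarith))
        (show 0 ≤ (N : ℝ) * (N : ℝ) ^ α by positivity)
      linarith
    have h2 := mul_le_mul_of_nonneg_right hδ1 (show 0 ≤ (8 * (N : ℝ)) ^ (1 + α) by positivity)
    linarith
  -- the number of pieces
  obtain ⟨c, hc⟩ : ∃ c : ℕ, c = (4096 * t + 1) * (4096 * t) * t ^ 2 := ⟨_, rfl⟩
  have ht0 : 1 ≤ t := by
    by_contra h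
    have : t = 0 := by omega
    rw [this] at hN
    omega
  have hc1 : c ≤ 2 ^ 25 * N ^ 2 := by rw [hc, hN]; nlinarith [Nat.pow_le_pow_right ht0 (by norm_num : 3 ≤ 4)]
  have hc0 : (0 : ℝ) < c := by rw [hc]; positivity
  have hc2 : (c : ℝ) ≤ 2 ^ 25 * N ^ 2 := by exact_mod_cast hc1
  obtain ⟨U, hU⟩ : ∃ U : ℝ, U = 2 * m * Φ + 2 * (m : ℝ) ^ 2 + (((16 * N : ℕ) : ℝ) + 1) ^ 3 :=
    ⟨_, rfl⟩
  have hU0 : 0 ≤ U := by rw [hU]; positivity
  obtain ⟨j, hj1, hj2⟩ : ∃ j : ℕ, U < (j * c : ℕ) * (N : ℝ) ^ α ∧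
      (j * c : ℕ) * (N : ℝ) ^ α ≤ U + c * (N : ℝ) ^ α := by
    refine ⟨⌊U / (c * (N : ℝ) ^ α)⌋₊ + 1, ?_, ?_⟩
    · have := Nat.lt_floor_add_one (U / (c * (N : ℝ) ^ α))
      rw [div_lt_iff₀ (by positivity)] at this
      push_cast
      linarith
    · have := Nat.floor_le (show 0 ≤ U / (c * (N : ℝ) ^ α) by positivity)
      rw [le_div_iff₀ (by positivity)] at this
      push_cast
      linarith
  have hE : (j * c : ℕ) * (N : ℝ) ^ α ≤ 2 * m * Φ + 3 * (n : ℝ) ^ 2 := by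
    have h1 : (((16 * N : ℕ) : ℝ) + 1) ^ 3 ≤ (17 * N) ^ 3 :=
      pow_le_pow_left₀ (by positivity) (by push_cast; linarith) 3
    have h2 := mul_le_mul hc2 hNα1 hNα.le (by positivity)
    have h3 : (m : ℝ) ^ 2 ≤ (n : ℝ) ^ 2 := pow_le_pow_left₀ (by positivity) hm1 2
    have h4 : (0 : ℝ) ≤ N ^ 3 := by positivity
    linarith
  have hE2 : ((j * c : ℕ) : ℝ) ≤ 600 * (n * N) := by
    refine le_of_mul_le_mul_right (hE.trans ?_) hNα
    have h1 := mul_le_mul hm1 hΦ1 hΦ0 hn0.le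
    have h2 := mul_le_mul_of_nonneg_left hnN hn0.le
    have h3 : (0 : ℝ) ≤ n * (N * (N : ℝ) ^ α) := by positivity
    linarith
  have hfit : j * ((4096 * t + 1) * t) ≤ m := by
    have h1 : j * c ≤ 600 * (n * N) := by exact_mod_cast hE2
    have h2 : j * c = j * ((4096 * t + 1) * t) * (4096 * N) := by rw [hc, hN]; ring
    have h3 : 600 * (n * N) ≤ m * (4096 * N) := by
      have : n * N ≤ 2 * m * N := Nat.mul_le_mul_right _ (by omega)
      nlinarith
    exact Nat.le_of_mul_le_mul_right (h2 ▸ h1.trans h3) (by omega)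
  obtain ⟨f, hf⟩ := Nat.exists_eq_add_of_le hfit
  have hβ : Fintype.card ((Fin j × Fin (4096 * t + 1) × Fin t) ⊕ Fin f) = m := by simp [hf]
  have hV : Fintype.card (((Fin j × Fin (4096 * t + 1) × Fin t) ⊕ Fin f) ⊕ Fin (16 * N + 1)) = n := by
    rw [Fintype.card_sum, hβ, hm, Fintype.card_fin]
  set H := mp j (4096 * t + 1) t f with hH
  have hT := mp_nu (j := j) (k := 4096 * t + 1) (t := t) (f := f) (16 * N)
  have hcard : (EE H).card = j * c := by rw [hc, hH, mp_card]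
  have hconn := cone_conn H (16 * N)
  have htop := cone_ne_top H (16 * N) (by omega)
  have s1 : 0 < hG (cone H (16 * N)) α := by
    have h1 := two_h' (G := cone H (16 * N)) α
    have h2 := sz_lower H (16 * N) hT α
    have h3 := w_upper H (16 * N) (α := α) (by linarith) (by linarith)
    rw [hcard, hNT] at h2
    rw [hβ, ← hΦ] at h3
    linarith
  have s2 : hG (cone H (16 * N)) (α + δ) < 0 := by
    have h1 := two_h' (G := cone H (16 * N)) (α + δ)
    have h2 := sz_upper H (16 * N) hT (α := α + δ) (by linarith) hV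
    have h3 := w_lower H (16 * N) (α := α + δ) (by linarith)
    have h4 := phi_growth hN1' hα hδ0.le
    rw [hcard, hNT, Real.rpow_add (by linarith)] at h2
    rw [hβ] at h3
    rw [← hΦ] at h4
    obtain ⟨Z, hZ⟩ : ∃ Z, Z = δ * (8 * (N : ℝ)) ^ (1 + α) := ⟨_, rfl⟩
    rw [← hZ] at f1 f2 h4
    have h5 : 1 ≤ (N : ℝ) ^ δ := Real.one_le_rpow hN1 hδ0.le
    have h6 := mul_le_mul_of_nonneg_left h4 (show (0 : ℝ) ≤ 2 * m by positivity)
    have h7 := mul_le_mul_of_nonneg_right hE (show 0 ≤ (N : ℝ) ^ δ by positivity)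
    have h8 : (n : ℝ) ^ (α + δ) ≤ n := Real.rpow_le_self_of_one_le (by linarith) hαδ.le
    have h9 := mul_le_mul_of_nonneg_left h8 hn0.le
    have h10 : ((n : ℝ) * (((16 * N : ℕ) : ℝ) + 1)) ^ (α + δ) ≤ ((n : ℝ) * (17 * N)) ^ (α + δ) :=
      Real.rpow_le_rpow (by positivity)
        (mul_le_mul_of_nonneg_left (by push_cast; linarith) hn0.le) (by linarith)
    have h11 := mul_le_mul (show 2 * (((16 * N : ℕ) : ℝ) + 1) ≤ 34 * N by push_cast; linarith) h10
      (by positivity) (by positivity)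
    have h12 := mul_le_mul_of_nonneg_left f1 hn0.le
    have h13 := mul_le_mul_of_nonneg_right hm2 (show 0 ≤ Z by linarith)
    have h14 : (0 : ℝ) < n * n := by positivity
    have h15 := mul_le_mul_of_nonneg_right h5 (show 0 ≤ 2 * m * Z - 3 * (n : ℝ) ^ 2 by linarith)
    linarith
  refine ⟨_, inferInstance, cone H (16 * N), hV, hconn, htop, ?_, ?_⟩
  · refine ⟨4096 * t + 1 + 1, cone_col (by omega), ?_⟩
    have h1 : (1 : ℝ) ≤ t := by exact_mod_cast ht0
    have h2 : ((4096 * t + 1 + 1 : ℕ) : ℝ) ^ 2 ≤ (4098 * (t : ℝ)) ^ 2 :=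
      pow_le_pow_left₀ (by positivity) (by push_cast; linarith) 2
    rw [mul_pow, hNT] at h2
    linarith
  · obtain ⟨a, -, a2, a3⟩ := exists_zero hconn (a := 0) (b := α) (by linarith)
      (mul_neg_of_neg_of_pos (h_neg hconn htop le_rfl) s1)
    obtain ⟨b, b1, b2, b3⟩ := exists_zero hconn (a := α) (b := α + δ) (by linarith)
      (mul_neg_of_pos_of_neg s1 s2)
    obtain ⟨c, c1, -, c3⟩ := exists_zero hconn (a := α + δ) (b := 2) (by linarith)
      (mul_neg_of_neg_of_pos s2 (h_pos hconn htop (by norm_num)))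
    exact ⟨a, b, c, by linarith, by linarith, a3, b3, c3⟩

end Pool.Agent.MP_dd6dde_co.Cq
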