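import Pool.Agent.MP_dd6dde_co.Thr.Sparse
import Pool.Agent.MP_dd6dde_co.Cq.Caro
import Pool.Agent.MP_dd6dde_co.Cq.Arith

/-! Graphs of small clique number have a unique zero. -/

namespace Pool.Agent.MP_dd6dde_co.Cq

open Finset Thr
open scoped Classical

variable {V : Type} [Fintype V] {G : SimpleGraph V}

theorem of_key (hc : G.Connected) (ht : G ≠ ⊤)
    (key : ∀ a b, hG G a = 0 → hG G b = 0 → ¬ a < b) : ∃! α : ℝ, hG G α = 0 := by
  obtain ⟨c, -, -, h⟩ := exists_zero hc (a := 0) (b := 2) (by norm_num)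
    (mul_neg_of_neg_of_pos (h_neg hc ht le_rfl) (h_pos hc ht (by norm_num)))
  exact ⟨c, h, fun y hy => le_antisymm (not_lt.1 (key c y h hy)) (not_lt.1 (key y c hy h))⟩

theorem of_crit (hc : G.Connected) (ht : G ≠ ⊤) {D : ℕ} (hD : 5 ≤ D) (hle : ∀ e, de G e ≤ D)
    (c4 : (if D = 5 then 16 else 4 * D - 5) * (EE G).card ≤
      4 * (∑ x, ∑ y, G.dist x y + (EE G).card)) : ∃! α : ℝ, hG G α = 0 := by
  have hE : (0 : ℝ) < (EE G).card := by
    obtain ⟨x, y, hxy, -⟩ := exists_far ht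
    obtain ⟨f, -, -, ha, -⟩ := geo hc x y
    have : (f 0, f (0 + 1)) ∈ EE G := mem_EE.2 (ha 0 (hc.pos_dist_of_ne hxy))
    exact_mod_cast Finset.card_pos.2 ⟨_, this⟩
  have D5 : (5 : ℝ) ≤ D := by exact_mod_cast hD
  obtain ⟨u, hu, h1, h2⟩ : ∃ u : ℝ, 0 < u ∧ u * Real.log D < (1 + u) * Real.log (1 + u) ∧
      (1 + u) * (EE G).card ≤ ∑ e ∈ PP V, de G e := by
    rw [sum_PP_de]
    split_ifs at c4 with h5
    · refine ⟨2, by norm_num, ?_, ?_⟩
      · have := Real.log_lt_log (show (0 : ℝ) < 5 ^ 2 by norm_num) (show _ < (3 : ℝ) ^ 3 by norm_num)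
        rw [Real.log_pow, Real.log_pow] at this
        rw [h5]
        norm_num at this ⊢
        linarith
      · have c5 := (Nat.cast_le (α := ℝ)).2 c4
        push_cast at c5
        linarith
    · refine ⟨D - 13 / 4, by linarith, log_crit (by omega), ?_⟩
      have c5 := (Nat.cast_le (α := ℝ)).2 c4
      rw [Nat.cast_mul, Nat.cast_sub (by omega)] at c5
      push_cast at c5
      linarith
  exact of_key hc ht fun a b ha hb => zero_unique (deriv_h hc) (fun α h0 => by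
    have := deriv_pos' hc hu hle (by linarith) h1 hE h2 (zero_mem hc ht h0).1 (zero_mem hc ht h0).2 h0
    linarith) ha hb

/-- Either the zero is unique for a direct reason, or the graph has few edges. -/
theorem unique_or (hc : G.Connected) (ht : G ≠ ⊤) {w : ℕ} (hw : (G.cliqueNum : ℝ) - 1 ≤ w) :
    (∃! α : ℝ, hG G α = 0) ∨ (¬ (w ≤ 2 ∨ w ^ 4 ≤ Fintype.card V) ∧
      ((EE G).card : ℝ) ≤ 3 * Fintype.card V * (w : ℝ) ^ 2) := by
  have : Nonempty V := hc.nonempty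
  obtain ⟨e0, -, he0⟩ := exists_max_image univ (fun e : V × V => G.dist e.1 e.2) univ_nonempty
  by_cases h4 : G.dist e0.1 e0.2 ≤ 4
  · exact Or.inl (of_key hc ht fun a b ha hb hab =>
      (four_pos hc ht (fun x y => (he0 (x, y) (mem_univ _)).trans h4) hab ha).ne' hb)
  obtain ⟨k, c1, c2, c3⟩ := count_path hc e0.1 e0.2 (by omega)
  obtain ⟨D, hD⟩ : ∃ D, D = G.dist e0.1 e0.2 := ⟨_, rfl⟩
  rw [← hD] at he0 h4 c1 c2 c3
  have hle : ∀ e, de G e ≤ D := fun e => by unfold de; exact_mod_cast he0 e (mem_univ e)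
  have D5 : 5 ≤ D := by omega
  have hr : 0 < Real.sqrt D := Real.sqrt_pos.2 (by exact_mod_cast (by omega : 0 < D))
  by_cases hM : ((EE G).card : ℝ) ≤ (Fintype.card V : ℕ) * w * Real.sqrt D
  · by_cases h1 : w ≤ 2 ∨ w ^ 4 ≤ Fintype.card V
    · rw [c1] at hM h1
      exact Or.inl (of_crit hc ht D5 hle (arith_near D5 c2 c3 hM h1))
    by_cases h2 : 3 * (w : ℝ) ≤ Real.sqrt D
    · rw [c1] at hM
      exact Or.inl (of_crit hc ht D5 hle (arith_far D5 c3 hM h2))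
    refine Or.inr ⟨h1, hM.trans ?_⟩
    have := mul_le_mul_of_nonneg_left (not_le.1 h2).le
      (show (0 : ℝ) ≤ (Fintype.card V : ℕ) * w by positivity)
    linarith
  refine Or.inl (of_key hc ht fun a b ha hb => zero_unique (deriv_h hc) (fun α h0 => ?_) ha hb)
  have := deriv_dense hc hr (fun e => by rw [Real.sq_sqrt (by positivity)]; exact hle e)
    (lt_of_le_of_lt (by gcongr) (not_le.1 hM)) (zero_mem hc ht h0).1 h0
  linarith

theorem rho_sq {n : ℕ} {l σ : ℝ} (hσ0 : 0 < σ) (h2 : σ ^ 2 = n) (h0 : 0 ≤ Real.log n)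
    (e : (n : ℝ) ^ (3 / 2 : ℝ) * Real.log n ^ (3 / 4 : ℝ) = σ ^ 3 * l ^ 3) :
    (Real.log n ^ (3 / 8 : ℝ) * (n : ℝ) ^ (1 / 4 : ℝ)) ^ 2 = σ * l ^ 3 := by
  have hn : (0 : ℝ) < n := by rw [← h2]; positivity
  refine mul_left_cancel₀ hn.ne' ?_
  have e1 : (n : ℝ) ^ (3 / 2 : ℝ) = n * ((n : ℝ) ^ (1 / 4 : ℝ)) ^ 2 := by
    rw [← Real.rpow_natCast, ← Real.rpow_mul hn.le, ← Real.rpow_one_add' hn.le (by norm_num)]
    norm_num
  have e2 : Real.log n ^ (3 / 4 : ℝ) = (Real.log n ^ (3 / 8 : ℝ)) ^ 2 := by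
    rw [← Real.rpow_natCast, ← Real.rpow_mul h0]
    norm_num
  rw [e1, e2] at e
  calc _ = n * ((n : ℝ) ^ (1 / 4 : ℝ)) ^ 2 * (Real.log n ^ (3 / 8 : ℝ)) ^ 2 := by ring
    _ = σ ^ 3 * l ^ 3 := e
    _ = _ := by rw [← h2]; ring

theorem unique_clique (hc : G.Connected) (ht : G ≠ ⊤) {n : ℕ} (hn : Fintype.card V = n)
    (hω : (G.cliqueNum : ℝ) ≤ 1 + max 2
      (max 1 (Real.log n ^ (3 / 8 : ℝ) / 1000) * (n : ℝ) ^ (1 / 4 : ℝ))) :
    ∃! α : ℝ, hG G α = 0 := by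
  have n1 : (1 : ℝ) ≤ n := by
    have : Nonempty V := hc.nonempty
    exact_mod_cast hn ▸ Fintype.card_pos
  have hl0 := Real.log_nonneg n1
  obtain ⟨w, hw1, hw2⟩ : ∃ w : ℕ, (G.cliqueNum : ℝ) - 1 ≤ w ∧ (w : ℝ) ≤ max 2
      (max 1 (Real.log n ^ (3 / 8 : ℝ) / 1000) * (n : ℝ) ^ (1 / 4 : ℝ)) := by
    rcases h : G.cliqueNum with _ | w
    · exact ⟨0, by norm_num, le_max_of_le_left (by norm_num)⟩
    · rw [h] at hω
      push_cast at hω
      exact ⟨w, by push_cast; linarith, by linarith⟩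
  refine (unique_or hc ht hw1).elim id fun ⟨h1, h2⟩ => ?_
  rw [hn] at h1 h2
  have h3 : (w : ℝ) ≤ max 1 (Real.log n ^ (3 / 8 : ℝ) / 1000) * (n : ℝ) ^ (1 / 4 : ℝ) :=
    (le_max_iff.1 hw2).resolve_left fun h => h1 (Or.inl (by exact_mod_cast h))
  have h4 : 1 < Real.log n ^ (3 / 8 : ℝ) / 1000 := by
    by_contra h
    rw [max_eq_left (not_lt.1 h), one_mul] at h3
    have h5 := pow_le_pow_left₀ (by positivity) h3 4
    rw [← Real.rpow_natCast (_ ^ (1 / 4 : ℝ)), ← Real.rpow_mul (by positivity)] at h5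
    norm_num at h5
    exact h1 (Or.inr (by exact_mod_cast h5))
  rw [max_eq_right h4.le] at h3
  have hn' : ⌈Real.exp (100 ^ 4)⌉₊ ≤ n := by
    by_contra hn'
    have a1 : (n : ℝ) < Real.exp (100 ^ 4) := Nat.lt_ceil.1 (not_le.1 hn')
    have a2 : Real.log n ≤ 100 ^ 4 := (Real.log_le_iff_le_exp (by linarith)).2 a1.le
    have a3 : Real.log n ^ (3 / 8 : ℝ) ≤ 10 ^ 3 := by
      refine (Real.rpow_le_rpow hl0 a2 (by norm_num)).trans_eq ?_
      rw [show (100 : ℝ) ^ 4 = 10 ^ 8 by norm_num, ← Real.rpow_natCast,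
        ← Real.rpow_mul (by norm_num), ← Real.rpow_natCast]
      norm_num
    linarith
  obtain ⟨l, σ, hl, hσ0, hσ, h5, e⟩ := params hn'
  have h6 := rho_sq hσ0 h5 hl0 e
  have h7 := pow_le_pow_left₀ (by positivity) h3 2
  rw [div_mul_eq_mul_div, div_pow, h6] at h7
  refine unique_zero hc ht hl hσ0 hσ (hn ▸ h5) (h2.trans ?_)
  rw [← h5]
  have h8 := mul_le_mul_of_nonneg_left h7 (sq_nonneg σ)
  have h9 : 0 ≤ σ ^ 3 * l ^ 3 := by have : 0 < l := by linarith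
                                    positivity
  linarith

end Pool.Agent.MP_dd6dde_co.Cq
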